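import Pool.Agent.R66.BX.Box

set_option autoImplicit false

/-!
# Counting the classes in a product set which have small `χ`
-/

namespace Pool.Agent.R505.SM

open Finset Pool.Agent.R66.BX

/-- `χ(d; w)`. -/
def chi {n : ℕ} (d : ℕ) (w : Fin n → ℕ) : ℤ :=
  ((d + 2).choose 2 : ℤ) - ∑ i, ((w i + 1).choose 2 : ℤ)

theorem chi_sub {n : ℕ} (w : Fin n → ℕ) (d d' : ℕ) :
    2 * (chi d' w - chi d w) = ((d' : ℤ) - d) * (d + d' + 3) := by
  unfold chi
  have h1 := choose_two d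
  have h2 := choose_two d'
  linear_combination h2 - h1

theorem two_ss {n : ℕ} (w : Fin n → ℕ) :
    2 * ∑ i, ((w i + 1).choose 2 : ℤ) = ∑ i, (w i : ℤ) * (w i + 1) := by
  rw [mul_sum]
  refine sum_congr rfl fun i _ => ?_
  rcases Nat.eq_zero_or_pos (w i) with h0 | h0
  · rw [h0]; simp
  · obtain ⟨m, hm⟩ : ∃ m, w i = m + 1 := ⟨w i - 1, by omega⟩
    have h := choose_two m
    rw [hm]
    have e : m + 1 + 1 = m + 2 := rfl
    rw [e, h]
    push_cast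
    ring

theorem sq_le {n : ℕ} (w : Fin n → ℕ) :
    ∑ i, (w i : ℤ) ^ 2 ≤ 2 * ∑ i, ((w i + 1).choose 2 : ℤ) := by
  rw [two_ss]
  refine sum_le_sum fun i _ => ?_
  have : (0 : ℤ) ≤ w i := by positivity
  nlinarith

/-- positive `χ`: the degree is large -/
theorem deg_of_pos {n : ℕ} {w : Fin n → ℕ} {d : ℕ} (h : 0 < chi d w) :
    ∑ i, (w i : ℤ) ^ 2 < ((d : ℤ) + 1) * (d + 2) := by
  have h1 := sq_le w
  have h2 := choose_two d
  unfold chi at h
  linarith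

/-- two degrees with small `χ` -/
theorem uniq {n : ℕ} {w : Fin n → ℕ} {μ d d' : ℕ} (hQ : (μ : ℤ) ^ 2 ≤ ∑ i, (w i : ℤ) ^ 2)
    (h1 : 0 < chi d w) (h2 : chi d w ≤ μ) (h3 : 0 < chi d' w) (h4 : chi d' w ≤ μ) : d = d' := by
  have key : ∀ a b : ℕ, a < b → 0 < chi a w → chi b w ≤ μ → False := by
    intro a b hab ha hb
    have h5 := deg_of_pos ha
    have h6 := chi_sub w a b
    have h7 : (μ : ℤ) < a + 2 := by
      by_contra hcon
      push Not at hcon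
      have : ((a : ℤ) + 1) * (a + 2) ≤ (μ : ℤ) ^ 2 := by nlinarith
      linarith
    have h8 : ((a : ℤ) + 1) ≤ b := by exact_mod_cast hab
    have h9 : ((b : ℤ) - a) * (a + b + 3) ≥ 1 * (2 * a + 4) := by
      apply mul_le_mul <;> nlinarith
    linarith
  rcases Nat.lt_trichotomy d d' with h | h | h
  · exact (key d d' h h1 h4).elim
  · exact h
  · exact (key d' d h h3 h2).elim

theorem box_card {n : ℕ} (D : ℕ) (A : Fin n → Finset ℕ) :
    (Set.ncard (box D A) : ℝ) = D * ∏ i, ((A i).card : ℝ) := by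
  rw [box_finset, Set.ncard_coe_finset, Finset.card_product,
    Nat.card_Icc, Fintype.card_piFinset]
  push_cast
  simp

theorem box_finite {n : ℕ} (D : ℕ) (A : Fin n → Finset ℕ) : (box D A).Finite := by
  rw [box_finset]
  exact Finset.finite_toSet _

/-- the classes with `0 < χ ≤ μ` and a typical vector -/
theorem mid_count {n : ℕ} (A : Fin n → Finset ℕ) (hA : ∀ i, (A i).Nonempty) {μ D : ℕ}
    (hμ : 1 ≤ μ) {N : ℝ} (hN : 2 < N) (hNe : mean2 A = N * (μ : ℝ) ^ 2) :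
    (Set.ncard {x ∈ box D A | 0 < chi x.1 x.2 ∧ chi x.1 x.2 ≤ μ ∧
      mean2 A / 2 < ∑ i, (x.2 i : ℝ) ^ 2} : ℝ) ≤ 5 / (μ * √N) * Set.ncard (box D A) := by
  classical
  set M : Set (ℕ × (Fin n → ℕ)) := {x ∈ box D A | 0 < chi x.1 x.2 ∧ chi x.1 x.2 ≤ μ ∧
      mean2 A / 2 < ∑ i, (x.2 i : ℝ) ^ 2} with hM
  have hμR : (1 : ℝ) ≤ μ := by exact_mod_cast hμ
  rcases M.eq_empty_or_nonempty with he | ⟨x, hx⟩
  · rw [he, Set.ncard_empty]
    have : (0 : ℝ) ≤ 5 / (μ * √N) * Set.ncard (box D A) := by positivity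
    simpa using this
  -- the degree bound is large
  have hD : (μ : ℝ) * √N < 5 * D := by
    have h1 := deg_of_pos hx.2.1
    have h2 : (x.1 : ℤ) ≤ D := by exact_mod_cast hx.1.2.1
    have h2' : (1 : ℤ) ≤ x.1 := by exact_mod_cast hx.1.1
    have h3 : ∑ i, (x.2 i : ℤ) ^ 2 < 9 * (D : ℤ) ^ 2 := by nlinarith
    have h4 : ∑ i, (x.2 i : ℝ) ^ 2 < 9 * (D : ℝ) ^ 2 := by exact_mod_cast h3
    have h5 := hx.2.2.2
    rw [hNe] at h5
    have h6 : ((μ : ℝ) * √N) ^ 2 < (5 * (D : ℝ)) ^ 2 := by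
      rw [mul_pow, Real.sq_sqrt (by linarith)]
      nlinarith
    exact lt_of_pow_lt_pow_left₀ 2 (by positivity) h6
  -- at most one degree for each vector
  have hinj : Set.InjOn Prod.snd M := by
    intro y hy z hz hyz
    have hQ : (μ : ℤ) ^ 2 ≤ ∑ i, (y.2 i : ℤ) ^ 2 := by
      have h5 := hy.2.2.2
      rw [hNe] at h5
      have h6 : ((μ : ℝ)) ^ 2 ≤ ∑ i, (y.2 i : ℝ) ^ 2 := by
        have : 0 < (μ : ℝ) ^ 2 := by positivity
        nlinarith
      exact_mod_cast h6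
    have h7 := uniq hQ hy.2.1 hy.2.2.1 (by rw [hyz]; exact hz.2.1) (by rw [hyz]; exact hz.2.2.1)
    exact Prod.ext h7 hyz
  have hmaps : Set.MapsTo Prod.snd M (↑(Fintype.piFinset A) : Set (Fin n → ℕ)) := by
    intro y hy
    exact Finset.mem_coe.2 (Fintype.mem_piFinset.2 hy.1.2.2)
  have hcard := Set.ncard_le_ncard_of_injOn _ hmaps hinj (Finset.finite_toSet _)
  rw [Set.ncard_coe_finset, Fintype.card_piFinset] at hcard
  have hcard' : (M.ncard : ℝ) ≤ ∏ i, ((A i).card : ℝ) := by exact_mod_cast hcard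
  refine hcard'.trans ?_
  rw [box_card]
  have hP : (0 : ℝ) ≤ ∏ i, ((A i).card : ℝ) := Finset.prod_nonneg fun i _ => by positivity
  have hs : 0 < √N := Real.sqrt_pos.2 (by linarith)
  have h8 : (1 : ℝ) ≤ 5 / (μ * √N) * D := by
    rw [div_mul_eq_mul_div, le_div_iff₀ (by positivity)]
    linarith
  calc ∏ i, ((A i).card : ℝ) = 1 * ∏ i, ((A i).card : ℝ) := (one_mul _).symm
    _ ≤ (5 / (μ * √N) * D) * ∏ i, ((A i).card : ℝ) := mul_le_mul_of_nonneg_right h8 hP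
    _ = _ := by ring

/-- **The number of the exceptional classes.** -/
theorem bad_classes {n : ℕ} (A : Fin n → Finset ℕ) (hA : ∀ i, (A i).Nonempty) {μ D : ℕ}
    (hμ : 1 ≤ μ) (hAμ : ∀ i, ∀ a ∈ A i, a ≤ μ) {N : ℝ} (hN : 0 < N)
    (hNe : mean2 A = N * (μ : ℝ) ^ 2) (Bad : ℕ → (Fin n → ℕ) → Prop)
    (hBad : ∀ m : Fin n → ℕ, (∀ i, m i ∈ A i) → ∀ d : ℕ, 1 ≤ d → Bad d m →
      ∑ i, (m i : ℤ) + 4 * |chi d m| < 25000 * ((μ : ℤ) + 3) ^ 2 ∨
        (0 < chi d m ∧ chi d m ≤ μ)) :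
    (Set.ncard {x ∈ box D A | Bad x.1 x.2} : ℝ) ≤
      (10 ^ 7 / N + 5 / (μ * √N)) * Set.ncard (box D A) := by
  classical
  have hμR : (1 : ℝ) ≤ μ := by exact_mod_cast hμ
  have hbf := box_finite D A
  have hs : 0 < √N := Real.sqrt_pos.2 hN
  have hall : (Set.ncard {x ∈ box D A | Bad x.1 x.2} : ℝ) ≤ Set.ncard (box D A) := by
    have h0 : {x ∈ box D A | Bad x.1 x.2} ⊆ box D A := fun x hx => hx.1
    exact_mod_cast Set.ncard_le_ncard h0 hbf
  rcases le_or_gt N 2 with h2 | h2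
  · refine hall.trans ?_
    have h3 : (1 : ℝ) ≤ 10 ^ 7 / N + 5 / (μ * √N) := by
      have h4 : (1 : ℝ) ≤ 10 ^ 7 / N := by
        rw [le_div_iff₀ hN]
        linarith
      have h5 : 0 ≤ 5 / (μ * √N) := by positivity
      linarith
    have h6 : (0 : ℝ) ≤ Set.ncard (box D A) := Nat.cast_nonneg _
    nlinarith
  set W : Set (ℕ × (Fin n → ℕ)) := {x ∈ box D A |
    ∑ i, (x.2 i : ℤ) + 4 * |chi x.1 x.2| < 25000 * ((μ : ℤ) + 3) ^ 2} with hW
  set T : Set (ℕ × (Fin n → ℕ)) := {x ∈ box D A | ∑ i, (x.2 i : ℝ) ^ 2 ≤ mean2 A / 2} with hT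
  set M : Set (ℕ × (Fin n → ℕ)) := {x ∈ box D A | 0 < chi x.1 x.2 ∧ chi x.1 x.2 ≤ μ ∧
      mean2 A / 2 < ∑ i, (x.2 i : ℝ) ^ 2} with hM
  have hsub : {x ∈ box D A | Bad x.1 x.2} ⊆ W ∪ (T ∪ M) := by
    rintro x ⟨hx, hb⟩
    rcases hBad x.2 hx.2.2 x.1 hx.1 hb with h | h
    · exact Or.inl ⟨hx, h⟩
    · right
      rcases le_or_gt (∑ i, (x.2 i : ℝ) ^ 2) (mean2 A / 2) with h3 | h3
      · exact Or.inl ⟨hx, h3⟩
      · exact Or.inr ⟨hx, h.1, h.2, h3⟩
  have hfW : W.Finite := hbf.subset fun x hx => hx.1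
  have hfT : T.Finite := hbf.subset fun x hx => hx.1
  have hfM : M.Finite := hbf.subset fun x hx => hx.1
  have hc1 : (Set.ncard {x ∈ box D A | Bad x.1 x.2} : ℝ) ≤ W.ncard + (T.ncard + M.ncard) := by
    have h3 := Set.ncard_le_ncard hsub (hfW.union (hfT.union hfM))
    have h4 := Set.ncard_union_le W (T ∪ M)
    have h5 := Set.ncard_union_le T M
    exact_mod_cast h3.trans (h4.trans (by omega))
  have hm0 : 0 < mean2 A := by
    rw [hNe]
    positivity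
  have hcW : (W.ncard : ℝ) ≤ 9 * 10 ^ 6 / N * Set.ncard (box D A) := by
    have h3 := box_count A hA (μ := 3 * μ) (D := D) (by omega)
      (fun i a ha => (hAμ i a ha).trans (by omega))
      (fun d m => ∑ i, (m i : ℤ) + 4 * |chi d m| < 25000 * ((μ : ℤ) + 3) ^ 2)
      (fun m hm d hd hdD h => by
        have h4 : 25000 * ((μ : ℤ) + 3) ^ 2 ≤ 25000 * (((3 * μ : ℕ) : ℤ) + 1) ^ 2 := by
          have h40 : (1 : ℤ) ≤ μ := by exact_mod_cast hμ
          have h41 : ((μ : ℤ) + 3) ^ 2 ≤ (((3 * μ : ℕ) : ℤ) + 1) ^ 2 := by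
            push_cast
            nlinarith
          exact mul_le_mul_of_nonneg_left h41 (by norm_num)
        have h5 : chi d m = ((d + 2).choose 2 : ℤ) - ∑ i, ((m i + 1).choose 2 : ℤ) := rfl
        rw [← h5]
        generalize 25000 * (((3 * μ : ℕ) : ℤ) + 1) ^ 2 = z at *
        linarith)
    rw [hNe] at h3
    rw [box_card, div_mul_eq_mul_div, le_div_iff₀ hN]
    push_cast at h3
    have hμ2 : (0 : ℝ) < (μ : ℝ) ^ 2 := by positivity
    refine le_of_mul_le_mul_right ?_ hμ2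
    calc (W.ncard : ℝ) * N * (μ : ℝ) ^ 2 = (W.ncard : ℝ) * (N * (μ : ℝ) ^ 2) := by ring
      _ ≤ _ := h3
      _ = 9 * 10 ^ 6 * (D * ∏ i, ((A i).card : ℝ)) * (μ : ℝ) ^ 2 := by ring
  have hcT : (T.ncard : ℝ) ≤ 22 / N * Set.ncard (box D A) := by
    have h3 := tail A hA hμ hAμ
    have hTe : T = ↑((Finset.Icc 1 D) ×ˢ ((Fintype.piFinset A).filter
        (fun m => ∑ i, (m i : ℝ) ^ 2 ≤ mean2 A / 2))) := by
      ext x
      simp [hT, Pool.Agent.R66.BX.box, and_assoc]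
    rw [hTe, Set.ncard_coe_finset, Finset.card_product, Nat.card_Icc, Nat.add_sub_cancel,
      box_card, div_mul_eq_mul_div, le_div_iff₀ hN]
    rw [hNe] at h3 ⊢
    push_cast
    have hμ2 : (0 : ℝ) < (μ : ℝ) ^ 2 := by positivity
    refine le_of_mul_le_mul_right ?_ hμ2
    have h4 := mul_le_mul_of_nonneg_left h3 (Nat.cast_nonneg (α := ℝ) D)
    linarith
  have hcM : (M.ncard : ℝ) ≤ 5 / (μ * √N) * Set.ncard (box D A) := mid_count A hA hμ h2 hNe
  have hb0 : (0 : ℝ) ≤ Set.ncard (box D A) := Nat.cast_nonneg _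
  have hN1 : 9 * 10 ^ 6 / N + 22 / N ≤ 10 ^ 7 / N := by
    rw [← add_div]
    exact div_le_div_of_nonneg_right (by norm_num) hN.le
  calc (Set.ncard {x ∈ box D A | Bad x.1 x.2} : ℝ) ≤ W.ncard + (T.ncard + M.ncard) := hc1
    _ ≤ 9 * 10 ^ 6 / N * Set.ncard (box D A) + (22 / N * Set.ncard (box D A) +
        5 / (μ * √N) * Set.ncard (box D A)) := by linarith
    _ = (9 * 10 ^ 6 / N + 22 / N + 5 / (μ * √N)) * Set.ncard (box D A) := by ring
    _ ≤ _ := mul_le_mul_of_nonneg_right (by linarith) hb0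

/-- in large boxes at least half of the classes have positive `χ` -/
theorem box_pos {n : ℕ} (A : Fin n → Finset ℕ) {μ D : ℕ} (hμ : 1 ≤ μ) 
    (hAμ : ∀ i, ∀ a ∈ A i, a ≤ μ) (hD : 4 * (μ : ℝ) * √n ≤ D) :
    (Set.ncard (box D A) : ℝ) ≤ 2 * Set.ncard {x ∈ box D A | 0 < chi x.1 x.2} := by
  classical
  have hμR : (1 : ℝ) ≤ μ := by exact_mod_cast hμ
  have hn : (0 : ℝ) ≤ n := Nat.cast_nonneg n
  have hsub : (↑((Finset.Ioc (D / 2) D) ×ˢ Fintype.piFinset A) : Set (ℕ × (Fin n → ℕ))) ⊆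
      {x ∈ box D A | 0 < chi x.1 x.2} := by
    intro x hx
    rw [Finset.mem_coe, Finset.mem_product, Finset.mem_Ioc, Fintype.mem_piFinset] at hx
    obtain ⟨⟨h1, h2⟩, h3⟩ := hx
    refine ⟨⟨by omega, h2, h3⟩, ?_⟩
    have h4 : (D : ℝ) < 2 * x.1 := by
      have : D < 2 * x.1 := by omega
      exact_mod_cast this
    have h5 : (2 * (μ : ℝ) * √n) ^ 2 ≤ (x.1 : ℝ) ^ 2 := pow_le_pow_left₀ (by positivity)
      (by linarith) 2
    rw [mul_pow, Real.sq_sqrt hn] at h5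
    have h6 : 4 * (μ : ℤ) ^ 2 * n ≤ (x.1 : ℤ) ^ 2 := by
      have : 4 * (μ : ℝ) ^ 2 * n ≤ (x.1 : ℝ) ^ 2 := by linarith
      exact_mod_cast this
    have h7 : ∑ i, (x.2 i : ℤ) * (x.2 i + 1) ≤ n * (μ * (μ + 1)) := by
      calc ∑ i, (x.2 i : ℤ) * (x.2 i + 1) ≤ ∑ _i : Fin n, ((μ : ℤ) * (μ + 1)) := by
            refine sum_le_sum fun i _ => ?_
            have h8 : (x.2 i : ℤ) ≤ μ := by exact_mod_cast hAμ i _ (h3 i)
            have h9 : (0 : ℤ) ≤ x.2 i := by positivity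
            nlinarith
        _ = n * (μ * (μ + 1)) := by
            rw [sum_const, card_univ, Fintype.card_fin, nsmul_eq_mul]
    have h10 := choose_two x.1
    have h11 := two_ss x.2
    unfold chi
    have hμz : (1 : ℤ) ≤ μ := by exact_mod_cast hμ
    have h12 : (n : ℤ) * (μ * (μ + 1)) ≤ 4 * (μ : ℤ) ^ 2 * n := by
      have : (0 : ℤ) ≤ n := by positivity
      nlinarith [mul_nonneg this (by nlinarith : (0 : ℤ) ≤ μ * (μ - 1)), mul_nonneg this (by positivity : (0 : ℤ) ≤ (μ : ℤ) ^ 2)]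
    have h13 : (0 : ℤ) ≤ x.1 := by positivity
    nlinarith
  have h1 := Set.ncard_le_ncard hsub ((box_finite D A).subset fun x hx => hx.1)
  rw [Set.ncard_coe_finset, Finset.card_product, Nat.card_Ioc, Fintype.card_piFinset] at h1
  have h2 : (((D - D / 2) * ∏ i, (A i).card : ℕ) : ℝ) ≤
      Set.ncard {x ∈ box D A | 0 < chi x.1 x.2} := by exact_mod_cast h1
  rw [box_card]
  have h3 : (D : ℝ) ≤ 2 * ((D - D / 2 : ℕ) : ℝ) := by
    have : D ≤ 2 * (D - D / 2) := by omega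
    exact_mod_cast this
  have hP : (0 : ℝ) ≤ ∏ i, ((A i).card : ℝ) := Finset.prod_nonneg fun i _ => by positivity
  push_cast at h2
  nlinarith

end Pool.Agent.R505.SM
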