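import Pool.Agent.H248R6.Open
import Pool.Agent.H248R6.All
import Pool.Agent.H248R5.Gen
import Pool.Agent.Y205.AV.Win

set_option autoImplicit false

/-!
# Smooth general members of all linear systems outside of a window

The classes `(d; w)` with `25000 (μ + 3) ^ 2 ≤ ∑ w i + 4 |χ|`, `w i ≤ μ`: the starting theorem
`Pool.Agent.Y205.AV.big_vectors` (non-speciality) for `(d; w)`, `(d; w + e k)` and `(d - 1; w - 1)`, with
the starting theorem `Pool.Agent.H248R6.open_main` (moving points), or for `(d - 1; w)`.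
-/

namespace Pool.Agent.R505.SM

open MvPolynomial Finset Pool.Agent.H248R5 Pool.Agent.H248R6
open Pool.Agent.Y205.AV (gap Big big_vectors)

theorem two_ch (k : ℕ) : 2 * (k + 2).choose 2 = (k + 1) * (k + 2) := by
  have h := Pool.Agent.H248R6.two_choose (k + 1)
  have e : k + 1 + 1 = k + 2 := rfl
  rw [e] at h
  rw [h]
  ring

theorem two_sum' {n : ℕ} (w : Fin n → ℕ) :
    ∑ p, w p * (w p + 1) = 2 * ∑ p, (w p + 1).choose 2 := by
  rw [mul_sum]
  refine sum_congr rfl fun p _ => ?_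
  have h := Pool.Agent.H248R6.two_choose (w p)
  rw [h]
  ring

theorem gap_eq' {n : ℕ} (w : Fin n → ℕ) (d : ℕ) :
    gap w d = ((d + 1) * (d + 2) - 2 * ∑ p, (w p + 1).choose 2) +
      (2 * ∑ p, (w p + 1).choose 2 - (d + 1) * (d + 2)) := by
  unfold gap
  rw [two_sum']

theorem surj_of_exp {K : Type} [Field K] {n : ℕ} {w : Fin n → ℕ} {P : Fin n → Fin 2 → K} {d : ℕ}
    (h : Pool.Agent.H932R3.ExpDim K w P d) (hd : ∑ i, (w i + 1).choose 2 ≤ (d + 2).choose 2) :
    Function.Surjective (ev w P d) := by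
  refine surj_of_ind ?_
  have h1 : Module.finrank K ↥(forms w P d) = (d + 2).choose 2 - ∑ i, (w i + 1).choose 2 := h
  omega

theorem sum_updw {n : ℕ} (v : Fin n → ℕ) (k : Fin n) :
    ∑ i, (Function.update v k (v k + 1) i + 1).choose 2 = ∑ i, (v i + 1).choose 2 + v k + 1 := by
  classical
  have h1 : ∀ i, (Function.update v k (v k + 1) i + 1).choose 2 =
      (v i + 1).choose 2 + if i = k then v k + 1 else 0 := by
    intro i
    by_cases hi : i = k
    · subst hi
      rw [Function.update_self, if_pos rfl]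
      have := Pool.Agent.H248R6.two_choose (v i)
      have h2 := Pool.Agent.H248R6.two_choose (v i + 1)
      nlinarith
    · rw [Function.update_of_ne hi, if_neg hi, add_zero]
  rw [Finset.sum_congr rfl fun i _ => h1 i, Finset.sum_add_distrib, Finset.sum_ite_eq',
    if_pos (Finset.mem_univ k), add_assoc]

theorem sum_upd1 {n : ℕ} (v : Fin n → ℕ) (k : Fin n) :
    ∑ i, Function.update v k (v k + 1) i = ∑ i, v i + 1 := by
  classical
  have h1 : ∀ i, Function.update v k (v k + 1) i = v i + if i = k then 1 else 0 := by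
    intro i
    by_cases hi : i = k
    · subst hi
      rw [Function.update_self, if_pos rfl]
    · rw [Function.update_of_ne hi, if_neg hi, add_zero]
  rw [Finset.sum_congr rfl fun i _ => h1 i, Finset.sum_add_distrib, Finset.sum_ite_eq',
    if_pos (Finset.mem_univ k)]

theorem sum_pred {n : ℕ} (v : Fin n → ℕ) :
    ∑ i, (v i - 1 + 1).choose 2 + ∑ i, v i = ∑ i, (v i + 1).choose 2 := by
  rw [← Finset.sum_add_distrib]
  refine Finset.sum_congr rfl fun i _ => ?_
  rcases Nat.eq_zero_or_pos (v i) with h0 | h0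
  · rw [h0]
    rfl
  · obtain ⟨m, hm⟩ : ∃ m, v i = m + 1 := ⟨v i - 1, by omega⟩
    have h1 := Pool.Agent.H248R6.two_choose m
    have h2 := Pool.Agent.H248R6.two_choose (m + 1)
    rw [hm, Nat.add_sub_cancel]
    nlinarith

/-- the sum of the binomials and the sum of the multiplicities -/
theorem ss_le {n : ℕ} {w : Fin n → ℕ} {μ : ℕ} (hμ : ∀ i, w i ≤ μ) :
    2 * ∑ p, (w p + 1).choose 2 ≤ (μ + 1) * ∑ i, w i := by
  rw [← two_sum', mul_sum]
  refine sum_le_sum fun i _ => ?_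
  have := hμ i
  nlinarith [Nat.zero_le (w i)]

/-- `w + e k` in degree `d` -/
theorem big_upd {n : ℕ} {w : Fin n → ℕ} {μ d : ℕ} (hμ : ∀ i, w i ≤ μ) (k : Fin n)
    (h : 25000 * (μ + 3) ^ 2 ≤ ∑ i, w i + 2 * gap w d)
    (hk : ∑ i, (w i + 1).choose 2 + w k < (d + 2).choose 2) :
    Big (Function.update w k (w k + 1)) (μ + 1) d := by
  left
  have h1 := two_ch d
  have h2 := hμ k
  rw [gap_eq'] at h ⊢
  rw [sum_updw, sum_upd1]
  generalize ∑ i, w i = A at *
  generalize ∑ i, (w i + 1).choose 2 = B at *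
  generalize (d + 2).choose 2 = c at *
  rw [← h1] at h ⊢
  have e : 25000 * (μ + 3) ^ 2 = 25000 * (μ + 1 + 1) ^ 2 + 25000 * (2 * μ + 5) := by ring
  omega

/-- `w - 1` in degree `d - 1` -/
theorem big_pred {n : ℕ} {w : Fin n → ℕ} {μ e : ℕ}
    (h : 25000 * (μ + 3) ^ 2 ≤ ∑ i, w i + 2 * gap w (e + 1))
    (hk : ∑ i, (w i + 1).choose 2 ≤ (e + 3).choose 2) (hs : 4 * (e + 2) ≤ 3 * ∑ i, w i) :
    Big (fun i => w i - 1) μ e := by
  left
  have h1 := two_ch (e + 1)
  have e1 : e + 1 + 1 = e + 2 := rfl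
  have e2 : e + 1 + 2 = e + 3 := rfl
  rw [e1, e2] at h1
  have h2 := sum_pred w
  rw [gap_eq', e1, e2] at h
  rw [gap_eq']
  generalize ∑ i, (w i - 1) = Z
  generalize ∑ i, (w i - 1 + 1).choose 2 = Y at *
  generalize ∑ i, w i = A at *
  generalize ∑ i, (w i + 1).choose 2 = B at *
  generalize (e + 3).choose 2 = c at *
  have h3 : (e + 1) * (e + 2) + 2 * (e + 2) = 2 * c := by
    rw [h1]
    ring
  rw [← h1] at h
  have e4 : 25000 * (μ + 3) ^ 2 = 25000 * (μ + 1) ^ 2 + 25000 * (4 * μ + 8) := by ring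
  generalize (e + 1) * (e + 2) = x at *
  omega

theorem num_pred {n : ℕ} {w : Fin n → ℕ} {e : ℕ}
    (hk : ∑ i, (w i + 1).choose 2 ≤ (e + 3).choose 2) (hs : 4 * (e + 2) ≤ 3 * ∑ i, w i) :
    ∑ i, (w i - 1 + 1).choose 2 ≤ (e + 2).choose 2 := by
  have h1 := two_ch (e + 1)
  have h0 := two_ch e
  have e1 : e + 1 + 1 = e + 2 := rfl
  have e2 : e + 1 + 2 = e + 3 := rfl
  rw [e1, e2] at h1
  have h2 := sum_pred w
  generalize ∑ i, (w i - 1 + 1).choose 2 = Y at *
  generalize ∑ i, w i = A at *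
  generalize ∑ i, (w i + 1).choose 2 = B at *
  have h3 : (e + 1) * (e + 2) + 2 * (e + 2) = 2 * (e + 3).choose 2 := by
    rw [h1]
    ring
  generalize (e + 3).choose 2 = c at *
  rw [← h0] at h3
  omega

theorem big_self {n : ℕ} {w : Fin n → ℕ} {μ d : ℕ}
    (h : 25000 * (μ + 3) ^ 2 ≤ ∑ i, w i + 2 * gap w d) : Big w μ d := by
  left
  refine le_trans ?_ h
  exact Nat.mul_le_mul_left _ (Nat.pow_le_pow_left (by omega) 2)

/-- few points: the degree is large -/
theorem deg_large {n : ℕ} {w : Fin n → ℕ} {μ d : ℕ}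
    (h : 25000 * (μ + 3) ^ 2 ≤ ∑ i, w i + 2 * gap w d)
    (hk : ∑ i, (w i + 1).choose 2 ≤ (d + 2).choose 2) (hs : 3 * ∑ i, w i < 4 * (d + 1)) :
    12 * (μ + 1) ≤ d := by
  by_contra hcon
  push Not at hcon
  have h1 := two_ch d
  rw [gap_eq'] at h
  generalize ∑ i, w i = A at *
  generalize ∑ i, (w i + 1).choose 2 = B at *
  have h2 : (d + 1) * (d + 2) ≤ (12 * (μ + 1)) * (12 * (μ + 1) + 1) :=
    Nat.mul_le_mul (by omega) (by omega)
  generalize (d + 2).choose 2 = c at *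
  generalize (d + 1) * (d + 2) = x at *
  have h3 : 3 * (25000 * (μ + 3) ^ 2) ≤ 4 * (12 * (μ + 1)) + 6 * ((12 * (μ + 1)) * (12 * (μ + 1) + 1)) := by
    omega
  nlinarith

theorem low {n : ℕ} {w : Fin n → ℕ} {μ d : ℕ} (hμ : ∀ i, w i ≤ μ) (hd : 12 * (μ + 1) ≤ d)
    (hs : 3 * ∑ i, w i < 4 * (d + 1)) :
    ∑ i, (w i + 1).choose 2 ≤ (d + 1).choose 2 ∧ Big w μ (d - 1) := by
  obtain ⟨e, rfl⟩ : ∃ e, d = e + 1 := ⟨d - 1, by omega⟩
  have h1 := two_ch e
  have h2 := ss_le hμ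
  have e1 : e + 1 + 1 = e + 2 := rfl
  rw [e1] at *
  have e3 : e + 1 - 1 = e := rfl
  rw [e3]
  unfold Big
  rw [gap_eq']
  generalize ∑ i, w i = A at *
  generalize ∑ i, (w i + 1).choose 2 = B at *
  generalize (e + 2).choose 2 = c at *
  have h4 : 3 * ((μ + 3) * A) + 3 * (52 * (μ + 1) ^ 2) ≤ 3 * ((e + 1) * (e + 2)) := by
    have h5 : (μ + 3) * (3 * A) ≤ (μ + 3) * (4 * (e + 2)) := Nat.mul_le_mul_left _ (by omega)
    have h6 : (μ + 3) * (4 * (e + 2)) ≤ (3 * (μ + 1)) * (4 * (e + 2)) :=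
      Nat.mul_le_mul_right _ (by omega)
    have h7 : (12 * (μ + 1)) * (e + 2) ≤ (e + 1) * (e + 2) := Nat.mul_le_mul_right _ hd
    have h8 : (12 * (μ + 1)) * (12 * (μ + 1)) ≤ (e + 1) * (e + 2) :=
      Nat.mul_le_mul hd (by omega)
    nlinarith
  have h9 : (μ + 3) * A = (μ + 1) * A + 2 * A := by ring
  rw [← h1] at h4 ⊢
  have h10 : (μ + 1) * A + 2 * A + 52 * (μ + 1) ^ 2 ≤ 2 * c := by
    rw [h9] at h4
    omega
  generalize (μ + 1) * A = y at *
  generalize 52 * (μ + 1) ^ 2 = z at *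
  refine ⟨by omega, Or.inr (by omega)⟩

/-- **Every class outside of the window.** -/
theorem key {n : ℕ} (w : Fin n → ℕ) (μ : ℕ) (hμ : ∀ i, w i ≤ μ) :
    ∃ F : MvPolynomial (Fin n × Fin 2) ℚ, F ≠ 0 ∧ ∀ P : Fin n → Fin 2 → ℂ,
      aeval (fun ij : Fin n × Fin 2 => P ij.1 ij.2) F ≠ 0 → ∀ d : ℕ, 1 ≤ d →
      25000 * (μ + 3) ^ 2 ≤ ∑ i, w i + 2 * gap w d →
      ((d + 2).choose 2 ≤ ∑ i, (w i + 1).choose 2 → forms w P d = ⊥) ∧
      (∑ i, (w i + 1).choose 2 < (d + 2).choose 2 →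
        (∀ k, ∑ i, (w i + 1).choose 2 + w k < (d + 2).choose 2) →
          Module.finrank ℂ ↥(forms w P d) + ∑ i, (w i + 1).choose 2 = (d + 2).choose 2 ∧
          GeneralMember (forms w P d) (SmoothMember w P)) := by
  classical
  obtain ⟨F1, hF1, h1⟩ := big_vectors w
  choose G hG hG' using fun k : Fin n => big_vectors (Function.update w k (w k + 1))
  obtain ⟨F3, hF3, h3⟩ := big_vectors (fun i => w i - 1)
  have hμk : ∀ k i, Function.update w k (w k + 1) i ≤ μ + 1 := by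
    intro k i
    by_cases hi : i = k
    · subst hi
      rw [Function.update_self]
      have := hμ i
      omega
    · rw [Function.update_of_ne hi]
      have := hμ i
      omega
  have hμp : ∀ i, w i - 1 ≤ μ := fun i => (Nat.sub_le _ _).trans (hμ i)
  -- the classes treated by the theorem on moving points
  let good : ℕ → Prop := fun e => 25000 * (μ + 3) ^ 2 ≤ ∑ i, w i + 2 * gap w (e + 1) ∧
    ∑ i, (w i + 1).choose 2 < (e + 3).choose 2 ∧
    (∀ k, ∑ i, (w i + 1).choose 2 + w k < (e + 3).choose 2) ∧ 4 * (e + 2) ≤ 3 * ∑ i, w i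
  have hgood : ∀ e, ∃ F : MvPolynomial (Fin n × Fin 2) ℚ, F ≠ 0 ∧ (good e →
      ∀ P : Fin n → Fin 2 → ℂ, aeval (fun ij : Fin n × Fin 2 => P ij.1 ij.2) F ≠ 0 →
        Module.finrank ℂ ↥(forms w P (e + 1)) + ∑ i, (w i + 1).choose 2 = (e + 3).choose 2 ∧
          GeneralMember (forms w P (e + 1)) (SmoothMember w P)) := by
    intro e
    by_cases he : good e
    · obtain ⟨g1, g2, g3, g4⟩ := he
      obtain ⟨F, hF, hF'⟩ := open_main (K := ℂ) (n := n) (e := e) (w := w)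
        (fun L _ _ P hP => by
          have hne : ∀ F : MvPolynomial (Fin n × Fin 2) ℚ, F ≠ 0 →
              aeval (fun ij : Fin n × Fin 2 => P ij.1 ij.2) F ≠ 0 := fun F hF h0 =>
            hF ((algebraicIndependent_iff.1 hP) F h0)
          refine ⟨fun k => surj_of_exp (hG' k P (hne _ (hG k)) (e + 1) (μ + 1) (hμk k)
            (big_upd hμ k g1 (g3 k))) ?_, surj_of_exp (h1 P (hne _ hF1) (e + 1) μ hμ
              (big_self g1)) g2.le, surj_of_exp (h3 P (hne _ hF3) e μ hμp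
              (big_pred g1 g2.le g4)) (num_pred g2.le g4)⟩
          rw [sum_updw]
          exact g3 k)
        ⟨F1 * ∏ k, G k, mul_ne_zero hF1 (Finset.prod_ne_zero_iff.2 fun k _ => hG k),
          fun P hP => by
            rw [map_mul, map_prod] at hP
            refine ⟨fun k => surj_of_exp (hG' k P (Finset.prod_ne_zero_iff.1
              (right_ne_zero_of_mul hP) k (Finset.mem_univ k)) (e + 1) (μ + 1) (hμk k)
              (big_upd hμ k g1 (g3 k))) ?_, surj_of_exp (h1 P (left_ne_zero_of_mul hP) (e + 1) μ hμ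
                (big_self g1)) g2.le⟩
            rw [sum_updw]
            exact g3 k⟩
      exact ⟨F, hF, fun _ => hF'⟩
    · exact ⟨1, one_ne_zero, fun h => absurd h he⟩
  choose H hH hH' using hgood
  refine ⟨F1 * disc ℚ n * ∏ e ∈ Finset.range (3 * ∑ i, w i), H e,
    mul_ne_zero (mul_ne_zero hF1 (disc_ne ℚ n)) (Finset.prod_ne_zero_iff.2 fun e _ => hH e),
    fun P hP d hd hbig => ?_⟩
  rw [map_mul, map_mul, map_prod] at hP
  have hP1 := left_ne_zero_of_mul (left_ne_zero_of_mul hP)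
  have hPd := inj_of_disc' (right_ne_zero_of_mul (left_ne_zero_of_mul hP))
  have hPH := Finset.prod_ne_zero_iff.1 (right_ne_zero_of_mul hP)
  have hexp : Module.finrank ℂ ↥(forms w P d) = (d + 2).choose 2 - ∑ i, (w i + 1).choose 2 :=
    h1 P hP1 d μ hμ (big_self hbig)
  refine ⟨fun hle => ?_, fun hlt hk => ?_⟩
  · have hfin := forms_finite w P d
    rw [Nat.sub_eq_zero_of_le hle] at hexp
    exact Submodule.finrank_eq_zero.1 hexp
  · obtain ⟨e, rfl⟩ : ∃ e, d = e + 1 := ⟨d - 1, by omega⟩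
    rcases Nat.lt_or_ge (3 * ∑ i, w i) (4 * (e + 2)) with hs | hs
    · have hdl := deg_large hbig hlt.le hs
      obtain ⟨l1, l2⟩ := low hμ hdl hs
      refine ⟨by omega, ?_⟩
      refine general_smooth' hPd (by omega) ?_ l1
      exact h1 P hP1 (e + 1 - 1) μ hμ l2
    · exact hH' e ⟨hbig, hlt, hk, hs⟩ P (hPH e (Finset.mem_range.2 (by omega)))

end Pool.Agent.R505.SM
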