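import Pool.Agent.R505.SM.Count

set_option autoImplicit false

/-!
# One free multiplicity: the vectors which have a degree with small positive `χ`
-/

namespace Pool.Agent.R505.SM

open Finset Pool.Agent.R66.BX

theorem choose_sub (a b : ℕ) :
    2 * (((b + 1).choose 2 : ℤ) - ((a + 1).choose 2 : ℤ)) = ((b : ℤ) - a) * (a + b + 1) := by
  have h : ∀ c : ℕ, 2 * ((c + 1).choose 2 : ℤ) = (c : ℤ) * (c + 1) := by
    intro c
    rcases Nat.eq_zero_or_pos c with h0 | h0
    · rw [h0]; simp
    · obtain ⟨m, hm⟩ : ∃ m, c = m + 1 := ⟨c - 1, by omega⟩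
      have h := choose_two m
      rw [hm]
      have e : m + 1 + 1 = m + 2 := rfl
      rw [e, h]
      push_cast
      ring
  linear_combination h b - h a

/-- a set of natural numbers any two of which differ by less than `k` -/
theorem card_of_close {S : Finset ℕ} {k : ℝ} (hk : 0 ≤ k)
    (h : ∀ a ∈ S, ∀ b ∈ S, a < b → ((b : ℝ) - a) < k) : (S.card : ℝ) ≤ 1 + k := by
  rcases S.eq_empty_or_nonempty with he | hne
  · rw [he]
    simp
    linarith
  · have hsub : S ⊆ Icc (S.min' hne) (S.max' hne) := fun x hx =>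
      mem_Icc.2 ⟨S.min'_le x hx, S.le_max' x hx⟩
    have h1 := card_le_card hsub
    rw [Nat.card_Icc] at h1
    rcases eq_or_lt_of_le (S.min'_le _ (S.max'_mem hne)) with h2 | h2
    · rw [← h2] at h1
      have h3 : S.card ≤ 1 := by omega
      have h4 : (S.card : ℝ) ≤ 1 := by exact_mod_cast h3
      linarith
    · have h3 := h _ (S.min'_mem hne) _ (S.max'_mem hne) h2
      have h4 : S.card + S.min' hne ≤ S.max' hne + 1 := by omega
      have h5 : (S.card : ℝ) + S.min' hne ≤ S.max' hne + 1 := by exact_mod_cast h4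
      linarith

/-- a set of natural numbers any two of which differ by less than `L` -/
theorem card_of_closeN {S : Finset ℕ} {L : ℕ} (hL : 1 ≤ L)
    (h : ∀ a ∈ S, ∀ b ∈ S, a < b → b < a + L) : S.card ≤ L := by
  rcases S.eq_empty_or_nonempty with he | hne
  · rw [he]
    simp
  · have hsub : S ⊆ Ico (S.min' hne) (S.min' hne + L) := by
      intro x hx
      refine mem_Ico.2 ⟨S.min'_le x hx, ?_⟩
      rcases eq_or_lt_of_le (S.min'_le x hx) with h2 | h2
      · omega
      · exact h _ (S.min'_mem hne) _ hx h2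
    have h1 := card_le_card hsub
    rw [Nat.card_Ico] at h1
    omega

/-- **One free multiplicity.** -/
theorem few_a {M s L : ℕ} (hL : 1 ≤ L) {R : ℝ} (hR : 0 < R) (hs : R ^ 2 ≤ 2 * s)
    (B : Finset ℕ) (hB : ∀ a ∈ B, a ≤ M ∧ ∃ d : ℕ,
      0 < ((d + 2).choose 2 : ℤ) - (((a + 1).choose 2 : ℤ) + s) ∧
        ((d + 2).choose 2 : ℤ) - (((a + 1).choose 2 : ℤ) + s) ≤ M) :
    (B.card : ℝ) ≤ M / L + 1 + L * (1 + M * (M + 3) / (2 * R)) := by
  classical
  have hLR : (1 : ℝ) ≤ L := by exact_mod_cast hL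
  -- small values
  have hsmall : ((B.filter fun a => a * L ≤ M).card : ℝ) ≤ M / L + 1 := by
    have h1 : (B.filter fun a => a * L ≤ M) ⊆ range (M / L + 1) := by
      intro a ha
      have h2 := (mem_filter.1 ha).2
      rw [mem_range, Nat.lt_succ_iff, Nat.le_div_iff_mul_le (by omega)]
      exact h2
    have h2 := card_le_card h1
    rw [card_range] at h2
    have h3 : ((B.filter fun a => a * L ≤ M).card : ℝ) ≤ ((M / L : ℕ) : ℝ) + 1 := by
      exact_mod_cast h2
    have h4 : ((M / L : ℕ) : ℝ) ≤ (M : ℝ) / L := Nat.cast_div_le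
    linarith
  set C := B.filter fun a => ¬ a * L ≤ M with hC
  have hsplit : (B.filter fun a => a * L ≤ M).card + C.card = B.card :=
    card_filter_add_card_filter_not (s := B) (fun a => a * L ≤ M)
  choose! f hf using fun (a : ℕ) (ha : a ∈ B) => (hB a ha).2
  -- the fibres
  have hfib : ∀ d ∈ C.image f, (C.filter fun x => f x = d).card ≤ L := by
    intro d _
    refine card_of_closeN hL fun a ha b hb hab => ?_
    obtain ⟨ha1, ha2⟩ := mem_filter.1 ha
    obtain ⟨hb1, hb2⟩ := mem_filter.1 hb
    obtain ⟨haB, haL⟩ := mem_filter.1 ha1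
    obtain ⟨hbB, hbL⟩ := mem_filter.1 hb1
    have h1 := hf a haB
    have h2 := hf b hbB
    rw [ha2] at h1
    rw [hb2] at h2
    have h3 := choose_sub a b
    have h4 : ((b : ℤ) - a) * (a + b + 1) < 2 * M := by linarith [h1.1, h1.2, h2.1, h2.2]
    have h5 : (M : ℤ) + 1 ≤ a * L := by
      have : M + 1 ≤ a * L := by omega
      exact_mod_cast this
    by_contra hcon
    push Not at hcon
    have h6 : (L : ℤ) ≤ (b : ℤ) - a := by
      have : ((a + L : ℕ) : ℤ) ≤ b := by exact_mod_cast hcon
      push_cast at this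
      linarith
    have ha0 : (0 : ℤ) ≤ a := by positivity
    have hL0 : (0 : ℤ) ≤ L := by positivity
    have h7 : (2 : ℤ) * a ≤ a + b + 1 := by linarith
    have h8 : (L : ℤ) * (2 * a) ≤ ((b : ℤ) - a) * (a + b + 1) :=
      mul_le_mul h6 h7 (by positivity) (by linarith)
    nlinarith
  have h1 := card_le_mul_card_image C L hfib
  -- the degrees
  have himg : ((C.image f).card : ℝ) ≤ 1 + M * (M + 3) / (2 * R) := by
    refine card_of_close (by positivity) fun d hd d' hd' hdd => ?_
    obtain ⟨a, ha, rfl⟩ := mem_image.1 hd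
    obtain ⟨b, hb, rfl⟩ := mem_image.1 hd'
    have haB := (mem_filter.1 ha).1
    have hbB := (mem_filter.1 hb).1
    have h2 := hf a haB
    have h3 := hf b hbB
    have hbM := (hB b hbB).1
    have h4 := choose_two (f a)
    have h5 := choose_two (f b)
    have h6 := choose_sub b M
    have h7 := choose_sub 0 M
    have h8 : (0 : ℤ) ≤ ((a + 1).choose 2 : ℤ) := by positivity
    have h9 : ((b + 1).choose 2 : ℤ) ≤ ((M + 1).choose 2 : ℤ) := by
      exact_mod_cast Nat.choose_le_choose 2 (by omega)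
    have h10 : ((0 + 1).choose 2 : ℤ) = 0 := by decide
    rw [h10] at h7
    push_cast at h7
    have h11 : ((f b : ℤ) - f a) * (f a + f b + 3) < M * (M + 3) := by
      have e : ((f b : ℤ) - f a) * (f a + f b + 3) =
        2 * ((f b + 2).choose 2 : ℤ) - 2 * ((f a + 2).choose 2 : ℤ) := by
        rw [h4, h5]; ring
      rw [e]
      nlinarith [h2.1, h3.2]
    have h12 : (2 * (s : ℤ)) < ((f a : ℤ) + 1) * (f a + 2) := by
      rw [← h4]
      linarith [h2.1]
    have h13 : (2 * (s : ℝ)) < ((f a : ℝ) + 1) * (f a + 2) := by exact_mod_cast h12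
    have hfa : (0 : ℝ) ≤ f a := Nat.cast_nonneg _
    have h14 : R < (f a : ℝ) + 2 := by
      by_contra hcon
      push Not at hcon
      nlinarith
    have h15 : (((f b : ℤ) - f a) * (f a + f b + 3) : ℝ) < M * (M + 3) := by exact_mod_cast h11
    push_cast at h15
    have h16 : (f a : ℝ) + 1 ≤ f b := by exact_mod_cast hdd
    rw [lt_div_iff₀ (by positivity)]
    have h17 : ((f b : ℝ) - f a) * (2 * R) ≤ ((f b : ℝ) - f a) * (f a + f b + 3) := by
      apply mul_le_mul_of_nonneg_left
      · linarith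
      · linarith
    linarith
  have h2 : (C.card : ℝ) ≤ L * (1 + M * (M + 3) / (2 * R)) := by
    have h3 : (C.card : ℝ) ≤ L * (C.image f).card := by exact_mod_cast h1
    exact h3.trans (mul_le_mul_of_nonneg_left himg (by linarith))
  have h3 : (B.card : ℝ) = ((B.filter fun a => a * L ≤ M).card : ℝ) + C.card := by
    exact_mod_cast hsplit.symm
  linarith

end Pool.Agent.R505.SM
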